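import Pool.Agent.AT5.Stmts2
import Pool.Agent.Helper94_PP.LemQ
import Pool.Agent.Helper89_AT3.BES2

/-! Squad AT5, row KBF: the number of characters of a block is at most the square of the order of a
defect group. -/

open scoped BigOperators

noncomputable section

namespace Pool.Agent.PP.T5.H15

open Pool.Agent.Helper51_AWC Pool.Agent.Helper79_WRA Pool.Agent.PP Pool.Agent.PP.KF
open Pool.Agent.PP.K9 Pool.Agent.PP.K9.H97 Pool.Agent.PP.H75 Pool.Agent.PP.T3 Pool.Agent.PP.T2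
open Pool.Agent.PP.T5 Pool.Agent.PP.H94

attribute [local instance] Ideal.Quotient.field

theorem rip_eq {H : Type} [Group H] [Fintype H] (ℓ : ℕ) (κ ψ : H → ℂ) [DecidablePred (Reg (H := H) ℓ)] :
    rip ℓ κ ψ = ∑ k : H, ((Fintype.card H : ℂ)⁻¹ * (if Reg ℓ k then starRingEnd ℂ (ψ k) else 0)) *
      κ k := by
  unfold rip
  rw [Nat.card_eq_fintype_card, finsum_eq_sum_of_fintype, Finset.mul_sum]
  refine Finset.sum_congr rfl fun k _ => ?_
  by_cases h : Reg ℓ k
  · rw [finsum_eq_if, if_pos h, if_pos h]; ring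
  · rw [finsum_eq_if, if_neg h, if_neg h]; ring

theorem sum_nsq {H : Type} [Group H] [Fintype H] {ψ : H → ℂ} (hψ : ψ ∈ Irr H) :
    ∑ k : H, Complex.normSq (ψ k) = Fintype.card H := by
  have h := irr_orth_self hψ
  have h2 : ((∑ k : H, Complex.normSq (ψ k) : ℝ) : ℂ) = ((Fintype.card H : ℝ) : ℂ) := by
    push_cast
    rw [← h]
    refine Finset.sum_congr rfl fun k _ => ?_
    rw [← Complex.mul_conj, irr_star hψ]
  exact_mod_cast h2

theorem bessel {H : Type} [Group H] [Fintype H] (ℓ : ℕ) {S : Set (H → ℂ)} (hS : S ⊆ Irr H)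
    [Fintype S] {ψ : H → ℂ} (hψ : ψ ∈ Irr H) :
    ∑ κ : S, Complex.normSq (rip ℓ κ.1 ψ) ≤ 1 := by
  classical
  have hc : (0 : ℝ) < Fintype.card H := by exact_mod_cast Fintype.card_pos
  have hb := T3.H89.bes S H (fun κ k => κ.1 k) (Fintype.card H) hc.le (by
    intro i
    rw [Finset.sum_eq_single i]
    · have h1 : (∑ k : H, i.1 k * starRingEnd ℂ (i.1 k)) = Fintype.card H := by
        rw [← irr_orth_self (hS i.2)]
        refine Finset.sum_congr rfl fun k _ => ?_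
        rw [irr_star (hS i.2)]
      rw [h1]
      simp
    · intro j _ hj
      have h1 : (∑ k : H, i.1 k * starRingEnd ℂ (j.1 k)) = 0 := by
        rw [← irr_orth_ne (hS i.2) (hS j.2) (fun h => hj (Subtype.ext h.symm))]
        refine Finset.sum_congr rfl fun k _ => ?_
        rw [irr_star (hS j.2)]
      rw [h1, norm_zero]
    · intro h; exact absurd (Finset.mem_univ _) h)
    (fun k => (Fintype.card H : ℂ)⁻¹ * (if Reg ℓ k then starRingEnd ℂ (ψ k) else 0))
  have h1 : ∀ κ : S, rip ℓ κ.1 ψ =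
      ∑ k : H, ((Fintype.card H : ℂ)⁻¹ * (if Reg ℓ k then starRingEnd ℂ (ψ k) else 0)) * κ.1 k :=
    fun κ => rip_eq ℓ κ.1 ψ
  have h2 : ∑ κ : S, Complex.normSq (rip ℓ κ.1 ψ) ≤ (Fintype.card H : ℝ) *
      ∑ k : H, Complex.normSq ((Fintype.card H : ℂ)⁻¹ *
        (if Reg ℓ k then starRingEnd ℂ (ψ k) else 0)) := by
    refine le_trans (le_of_eq ?_) hb
    exact Finset.sum_congr rfl fun κ _ => by rw [h1 κ]
  refine h2.trans ?_
  have h3 : ∑ k : H, Complex.normSq ((Fintype.card H : ℂ)⁻¹ *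
        (if Reg ℓ k then starRingEnd ℂ (ψ k) else 0)) ≤
      ((Fintype.card H : ℝ)⁻¹) ^ 2 * ∑ k : H, Complex.normSq (ψ k) := by
    rw [Finset.mul_sum]
    refine Finset.sum_le_sum fun k _ => ?_
    rw [map_mul]
    have h4 : Complex.normSq ((Fintype.card H : ℂ)⁻¹) = ((Fintype.card H : ℝ)⁻¹) ^ 2 := by
      have h5 : ((Fintype.card H : ℂ)⁻¹) = (((Fintype.card H : ℝ)⁻¹ : ℝ) : ℂ) := by push_cast; rfl
      rw [h5, Complex.normSq_ofReal, pow_two]
    rw [h4]
    refine mul_le_mul_of_nonneg_left ?_ (by positivity)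
    by_cases h : Reg ℓ k
    · rw [if_pos h, Complex.normSq_conj]
    · rw [if_neg h, map_zero]; exact Complex.normSq_nonneg _
  calc (Fintype.card H : ℝ) * ∑ k : H, Complex.normSq ((Fintype.card H : ℂ)⁻¹ *
        (if Reg ℓ k then starRingEnd ℂ (ψ k) else 0))
      ≤ (Fintype.card H : ℝ) * (((Fintype.card H : ℝ)⁻¹) ^ 2 * ∑ k : H, Complex.normSq (ψ k)) :=
        mul_le_mul_of_nonneg_left h3 hc.le
    _ = 1 := by
        rw [sum_nsq hψ]
        field_simp

theorem kbf (hz : NzmStmt) (hi : InqStmt) : KbfStmt := by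
  intro ℓ _ M _ hM H _ _ b hb V hV
  classical
  haveI : Fintype H := Fintype.ofFinite H
  obtain ⟨ψ, hψ, hne⟩ := hz ℓ M hM H b hb
  have hS : IrrE M b ⊆ Irr H := fun χ h => h.1
  have hfin : (IrrE M b).Finite := (irr_finite' (G := H)).subset hS
  haveI : Fintype (IrrE M b) := hfin.fintype
  have hV0 : 0 < Nat.card V := Nat.card_pos
  have hVr : (0 : ℝ) < Nat.card V := by exact_mod_cast hV0
  have hB := bessel ℓ hS (hS hψ)
  have hk : ∀ κ : IrrE M b, ((Nat.card V : ℝ) ^ 2)⁻¹ ≤ Complex.normSq (rip ℓ κ.1 ψ) := by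
    intro κ
    obtain ⟨n, hn⟩ := hi ℓ M hM H b hb V hV κ.1 κ.2 ψ hψ
    have hr := hne κ.1 κ.2
    have hn0 : n ≠ 0 := by
      rintro rfl
      rw [Int.cast_zero] at hn
      rcases mul_eq_zero.1 hn with h | h
      · exact hV0.ne' (by exact_mod_cast h)
      · exact hr h
    have h1 : Complex.normSq ((Nat.card V : ℂ) * rip ℓ κ.1 ψ) = (n : ℝ) ^ 2 := by
      rw [hn]
      have h5 : ((n : ℤ) : ℂ) = ((n : ℝ) : ℂ) := by push_cast; rfl
      rw [h5, Complex.normSq_ofReal, pow_two]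
    rw [map_mul] at h1
    have h4 : Complex.normSq ((Nat.card V : ℂ)) = (Nat.card V : ℝ) ^ 2 := by
      have h5 : ((Nat.card V : ℕ) : ℂ) = ((Nat.card V : ℝ) : ℂ) := by push_cast; rfl
      rw [h5, Complex.normSq_ofReal, pow_two]
    rw [h4] at h1
    have h6 : (1 : ℝ) ≤ (n : ℝ) ^ 2 := by
      have h7 : (1 : ℤ) ≤ n ^ 2 := by
        have := Int.one_le_abs hn0
        nlinarith [sq_abs n, abs_nonneg n]
      exact_mod_cast h7
    rw [inv_le_iff_one_le_mul₀ (by positivity)]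
    rw [mul_comm]
    linarith
  have hsum : (Fintype.card (IrrE M b) : ℝ) * ((Nat.card V : ℝ) ^ 2)⁻¹ ≤ 1 := by
    refine le_trans ?_ hB
    have h8 : ∑ _κ : IrrE M b, ((Nat.card V : ℝ) ^ 2)⁻¹ ≤
        ∑ κ : IrrE M b, Complex.normSq (rip ℓ κ.1 ψ) := Finset.sum_le_sum fun κ _ => hk κ
    rw [Finset.sum_const, nsmul_eq_mul, Finset.card_univ] at h8
    exact h8
  have h9 : (Fintype.card (IrrE M b) : ℝ) ≤ (Nat.card V : ℝ) ^ 2 := by
    rw [← div_eq_mul_inv, div_le_one (by positivity)] at hsum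
    exact hsum
  rw [Set.ncard_eq_toFinset_card' , Set.toFinset_card]
  exact_mod_cast h9

end Pool.Agent.PP.T5.H15
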